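import Mathlib
import Pool.Agent.Helper43.UN.GoalsH
import Pool.Agent.Helper43.UN.GoalsR

/-! Packet CIIb of project UN. -/

set_option autoImplicit false

namespace Pool.Agent.Helper48.UN

open Finset
open Pool.Agent.Lead.Sh
open Pool.Agent.Helper43.UN
open Pool.Agent.Helper43.Ah (rowsD)
open Pool.Agent.Helper43.Gm (Pri)
open Pool.Agent.Helper43.Hw (T na va lz Play aa ac sc oo sk U Dd Sd Pn nx bb np)
open Pool.Agent.Helper18.EW (GoalPA GoalCP GoalSw)
open Pool.Agent.Helper18.UW (lg OkU UPlay UPre uz GoalU1 GoalPig)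
open Pool.Agent.Helper18.SG (HypW GoalGW GoalA2 GoalT1 GoalT1a blk)

theorem upre_mono {m : ℕ → ℕ} {R N Y : ℕ} {κ x : ℕ → ℕ} (h : UPre m R N Y κ x) :
    ∀ b, ∀ a, a ≤ b → b ≤ Y → κ a ≤ κ b := by
  intro b
  induction b with
  | zero => intro a ha hb; have : a = 0 := by omega
            subst this; exact le_rfl
  | succ b ih =>
    intro a ha hb
    rcases Nat.lt_or_ge b a with h1 | h1
    · have : a = b + 1 := by omega
      subst this; exact le_rfl
    · exact (ih a h1 (by omega)).trans (h.mono b (by omega))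

theorem upre_restrict {m : ℕ → ℕ} {R N Y Y' : ℕ} {κ x : ℕ → ℕ} (h : UPre m R N Y κ x)
    (hY : Y' ≤ Y) : UPre m R N Y' κ x where
  mono := fun y hy => h.mono y (by omega)
  le := fun y hy => h.le y (by omega)
  lt := fun y hy => h.lt y (by omega)
  nat := fun y hy => h.nat y (by omega)
  fin := fun y hy => h.fin y (by omega)
  inc := fun y hy => h.inc y (by omega)

theorem goalCIIb : GoalCIIb := by
  intro hPf hR1 hUC hXH hPX hXT hPA hU1 hGW hA2 A0 Hg m M Mb R A β lam m' μ N00 N0 N exc hCD hCP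
  have sh := hCD.sh
  have sg := hCP.sg
  have pf := sg.pf
  obtain ⟨κ, x, hpre, hex, hkN, hn0, hn00⟩ := hR1 m' M Mb μ R A (60 * M) N00 N0 N _ _ sg
  have hμ1 := sg.μ1
  have hμM := sg.μM
  have hM1 := sh.M1
  have hMMb := sh.MMb
  have hR100 := pf.R1
  have hRE := pf.RE
  obtain ⟨Y, hY⟩ : ∃ Y, Y + 4 * μ + 1 = R := ⟨R - (4 * μ + 1), by omega⟩
  have hY1 : 1 ≤ Y := by omega
  have hYJ : Y ≤ R - 1 - μ := by omega
  have hpreY : UPre m' R N Y κ x := upre_restrict hpre hYJ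
  have hkY : κ Y < N := lt_of_le_of_lt (upre_mono hpre _ _ hYJ le_rfl) hkN
  have hmc : ∀ c < N, 1 ≤ m' c ∧ m' c + 2 ≤ R := by
    intro c hc
    rcases Nat.lt_or_ge c N00 with h1 | h1
    · have := sg.pre0 c h1
      omega
    · rcases Nat.lt_or_ge c N0 with h2 | h2
      · have := sg.pre c h1 h2
        omega
      · have := sg.main c h2 hc
        omega
  have hbig : ∀ c < N, μ < m' c → ∃ y, y + m' c + 1 ≤ Y ∧ c < κ y := by
    intro c hc hm
    have hcN0 : c < N0 := by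
      by_contra h
      have := hCP.one c (by omega)
      omega
    rcases Nat.lt_or_ge c N00 with h1 | h1
    · have := sg.pre0 c h1
      exact ⟨R - 60 * M - 2 * Mb, by omega, by omega⟩
    · have := sg.pre c h1 hcN0
      exact ⟨R - 60 * M, by omega, by omega⟩
  obtain ⟨u1, u2, u3, u4, u5, u6, u7, u8, u9, u10⟩ :=
    hUC hU1 m' μ R Y N (aa κ x (Y - 1)) κ x (ck Y (aa κ x (Y - 1)) κ)
      (cx m' R N Y (aa κ x (Y - 1)) x) hμ1 hY1 (by omega) hmc hpreY hkY hbig rfl rfl rfl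
  generalize hg : aa κ x (Y - 1) = g at *
  generalize hκ' : ck Y g κ = κ' at *
  generalize hx' : cx m' R N Y g x = x' at *
  have hgN0 : N0 ≤ g := by
    have h1 : κ (R - 60 * M) ≤ κ (Y - 1) := upre_mono hpre _ _ (by omega) (by omega)
    omega
  have hone : ∀ c, g ≤ c → 1 ≤ m' c ∧ m' c ≤ μ := fun c hc => hCP.one c (by omega)
  have hanti : ∀ c c', g ≤ c → c ≤ c' → m' c' ≤ m' c := fun c c' hc hcc =>
    hCP.anti c c' (by omega) hcc
  set ℓ : ℕ → ℕ := fun y => lam (R - 1 - y) with hℓ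
  have hl1 : ∀ y, Y ≤ y + 1 → y < R → 27 * μ ^ 2 ≤ ℓ y := by
    intro y h1 h2
    have h3 := pf.fl y (by omega) h2
    have h4 := hCP.μA
    have h5 : 99 * A ≤ 100 * ℓ y := h3
    nlinarith [h4, h5]
  have hl2 : ∀ y, Y ≤ y + 1 → y + 1 < R → ℓ y ≤ ℓ (y + 1) := by
    intro y h1 h2
    have h3 := sh.anti (R - 1 - (y + 1)) (by omega)
    have h4 : R - 1 - (y + 1) + 1 = R - 1 - y := by omega
    rw [h4] at h3
    exact h3
  have hl3 : ∀ y, R ≤ y + 1 + μ → y + 2 < R → ℓ y + ℓ (y + 2) = 2 * ℓ (y + 1) := by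
    intro y h1 h2
    have h3 := sh.lin (R - 1 - (y + 1)) (by omega)
    have h4 := sh.lin (R - 1 - (y + 2)) (by omega)
    have h5 : R - 1 - (y + 1) + 1 = R - 1 - y := by omega
    have h6 : R - 1 - (y + 2) + 1 = R - 1 - (y + 1) := by omega
    rw [h5] at h3
    rw [h6] at h4
    simp only [hℓ]
    omega
  have hexl : ∀ z < Y, uz m' R g κ' x' z = ℓ z := by
    intro z hz
    rw [u6 z hz, hex z (by omega)]
  have hsum : ∑ c ∈ range g, (m' c + 1).choose 2 =
      ∑ z ∈ range Y, ℓ z + ∑ z ∈ Ico Y R, uz m' R g κ' x' z := by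
    rw [← u7, ← Finset.sum_range_add_sum_Ico _ (by omega : Y ≤ R)]
    congr 1
    exact Finset.sum_congr rfl (fun z hz => hexl z (mem_range.1 hz))
  have hlast : μ * uz m' R g κ' x' Y + ℓ (Y - 1) ≤ μ * ℓ (Y - 1) + μ ^ 2 := by
    have h1 := hex (Y - 1) (by omega)
    rw [h1] at u10
    exact u10
  obtain ⟨hFl, hHW⟩ := hXH μ R Y N g exc m' ℓ (uz m' R g κ' x') hμ1 hY hY1 u2 hone hanti hl1
    hl2 hl3 u8 u9 hlast hCP.tot hsum
  obtain ⟨s, z, hsz, hLo⟩ := hGW _ _ _ _ _ _ hHW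
  obtain ⟨π, ε, hPri⟩ := hPX hPA hU1 m' R Y g N κ' x' s z hmc
    (fun c h1 _ => by have := hone c h1; omega) hY1 (by omega) u2 u3 u4 u5 hsz
  have hRg : Rg (rowsD R lam) R ℓ := by
    obtain ⟨_, _, h3, _⟩ := hPf M Mb R A β 0 0 lam sh (by omega) (by omega) (Or.inl ⟨rfl, rfl⟩)
    have h4 : (rowsD R lam).filter (fun x => 0 ≤ x.1 + x.2) = rowsD R lam :=
      Finset.filter_true_of_mem (fun _ _ => Nat.zero_le _)
    have h5 : (fun y => lc lam 0 (R - 1 - y)) = ℓ := by
      funext y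
      simp only [lc, hℓ]
      omega
    rw [h4, h5] at h3
    exact h3
  apply hCP.inj
  refine hXT hA2 (rowsD R lam) R N ℓ m' (xv m' R Y g κ' x' s z) π ε hRg hPri ?_
  intro y hy
  have hsplit : ∑ c ∈ range N, xv m' R Y g κ' x' s z c y =
      uz m' R g κ' x' y + ∑ c ∈ Ico g N, xv m' R Y g κ' x' s z c y := by
    rw [← Finset.sum_range_add_sum_Ico _ u2]
    congr 1
    unfold uz
    refine Finset.sum_congr rfl (fun c hc => ?_)
    unfold xv
    rw [if_pos (mem_range.1 hc)]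
  rw [hsplit]
  rcases Nat.lt_or_ge y Y with h1 | h1
  · rw [hexl y h1]
    omega
  · have h2 : ∑ c ∈ Ico g N, xv m' R Y g κ' x' s z c y =
        Pool.Agent.Helper18.SG.Lo (R - Y) (N - g) (fun c => m' (g + c)) s z (y - Y) := by
      rw [Finset.sum_Ico_eq_sum_range]
      unfold Pool.Agent.Helper18.SG.Lo
      refine Finset.sum_congr rfl (fun c hc => ?_)
      unfold xv
      rw [if_neg (by omega), if_neg (by omega)]
      have h3 : g + c - g = c := by omega
      rw [h3]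
    rw [h2, hLo (y - Y) (by omega)]
    have h3 : Y + (y - Y) = y := by omega
    have h4 := hFl y h1 hy
    simp only [h3]
    generalize exc / (R - Y) = a1
    generalize (if R - Y ≤ y - Y + exc % (R - Y) then 1 else 0) = a2
    omega

end Pool.Agent.Helper48.UN
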